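import Pool.Agent.H75C.HY.TR

/-!
# Small clusters
-/

set_option autoImplicit false

namespace Pool.Agent.Helper62K6.TR

open Pool.Agent.NPC Pool.Agent.H75C.HY Pool.Agent.H75C.HY.TR

variable {𝔅 : Base}

theorem ce_dia {K : Model} {C : Set K.W} {r : Prop} {m : Form 𝔅 → List ℕ → Bool → Prop}
    {φ : Form 𝔅} {B : List ℕ} {g : ℕ → K.W} {w : K.W} :
    ce K C r m (.dia φ) B g w = true ↔
      (m φ B true ∨ (r ∧ ∃ v ∈ C, ce K C r m φ B g v = true)) := by
  simp only [ce, decide_eq_true_eq]

theorem ce_box {K : Model} {C : Set K.W} {r : Prop} {m : Form 𝔅 → List ℕ → Bool → Prop}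
    {φ : Form 𝔅} {B : List ℕ} {g : ℕ → K.W} {w : K.W} :
    ce K C r m (.box φ) B g w = true ↔
      (¬ m φ B false ∧ (r → ∀ v ∈ C, ce K C r m φ B g v = true)) := by
  simp only [ce, decide_eq_true_eq]

section Inv

variable {K : Model} {A : Finset ℕ} {S C C' : Set K.W}

/-- **Invariance.** -/
theorem inv_ce (haff : ∀ b : 𝔅.B, Affine (𝔅.ev b)) (hS : S ⊆ C) (hS' : S ⊆ C')
    (hN : ∀ i ∈ A, K.nm i ∈ C → K.nm i ∈ S) (hN' : ∀ i ∈ A, K.nm i ∈ C' → K.nm i ∈ S)
    (r : Prop) (m : Form 𝔅 → List ℕ → Bool → Prop) :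
    ∀ (φ : Form 𝔅), NoAt φ → Names A φ →
      (∀ f ∈ qfl K φ, ∀ c, ((∃ v ∈ C \ S, f v = c) ∨ (∃ v ∈ C' \ S, f v = c)) →
        Many A.card (C \ S) f c ∧ Many A.card (C' \ S) f c) →
      ∀ (B : List ℕ) (g g' : ℕ → K.W) (w w' : K.W), Mt A S C C' g g' → Ms A S C C' g g' w w' →
        Bool.xor (ce K C r m φ B g w) (tp K φ w) = Bool.xor (ce K C' r m φ B g' w') (tp K φ w') := by
  intro φ
  induction φ with
  | prop i => intro _ _ _ B g g' w w' _ _; simp [ce, tp]
  | nom i =>
    intro _ hA _ B g g' w w' _ h'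
    have : w = K.nm i ↔ w' = K.nm i := by
      constructor
      · intro h
        have h1 : K.nm i ∈ S := hN i hA (h ▸ h'.hw)
        rw [← h'.inS (Or.inl (h ▸ h1)), h]
      · intro h
        have h1 : K.nm i ∈ S := hN' i hA (h ▸ h'.hw')
        rw [h'.inS (Or.inr (h ▸ h1)), h]
    simp [ce, tp, this]
  | var x =>
    intro _ hA _ B g g' w w' _ h'
    have := h'.eq x hA
    simp [ce, tp, this]
  | app b φ ih =>
    intro hφ hA hQ B g g' w w' h h'
    have e : ∀ (D : Set K.W) (g : ℕ → K.W) (w : K.W),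
        Bool.xor (ce K D r m (Form.app b φ) B g w) (tp K (Form.app b φ) w) =
          𝔅.ev b (fun i => Bool.xor (ce K D r m (φ i) B g w) (tp K (φ i) w)) := by
      intro D g w
      rw [(haff b).xor]
      rfl
    rw [e, e]
    congr 1
    funext i
    exact ih i (hφ i) (hA i) (fun f hf => hQ f (by
      rw [qfl, List.mem_flatten]
      exact ⟨_, List.mem_ofFn.2 ⟨i, rfl⟩, hf⟩)) B g g' w w' h h'
  | dia φ ih =>
    intro hφ hA hQ B g g' w w' h h'
    have hq := hQ (tp K φ) (by rw [qfl]; exact List.mem_cons_self)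
    have ih' := ih hφ hA (fun f hf => hQ f (by rw [qfl]; exact List.mem_cons_of_mem _ hf)) B
    have : (∃ v ∈ C, ce K C r m φ B g v = true) ↔ ∃ v ∈ C', ce K C' r m φ B g' v = true := by
      constructor
      · exact transfer h hS' (tp K φ) _ _ (fun c hc => hq c (Or.inl hc))
          (fun c hc => hq c (Or.inr hc)) (fun v v' hv => ih' g g' v v' h hv) true
      · exact transfer h.symm hS (tp K φ) _ _ (fun c hc => (hq c (Or.inr hc)).symm)
          (fun c hc => (hq c (Or.inl hc)).symm) (fun v v' hv => (ih' g g' v' v h hv.symm).symm) true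
    have e : ce K C r m (Form.dia φ) B g w = ce K C' r m (Form.dia φ) B g' w' := by
      rw [Bool.eq_iff_iff, ce_dia, ce_dia, this]
    rw [e]
    rfl
  | box φ ih =>
    intro hφ hA hQ B g g' w w' h h'
    have hq := hQ (tp K φ) (by rw [qfl]; exact List.mem_cons_self)
    have ih' := ih hφ hA (fun f hf => hQ f (by rw [qfl]; exact List.mem_cons_of_mem _ hf)) B
    have h1 : (∃ v ∈ C, ce K C r m φ B g v = false) ↔ ∃ v ∈ C', ce K C' r m φ B g' v = false := by
      constructor
      · exact transfer h hS' (tp K φ) _ _ (fun c hc => hq c (Or.inl hc))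
          (fun c hc => hq c (Or.inr hc)) (fun v v' hv => ih' g g' v v' h hv) false
      · exact transfer h.symm hS (tp K φ) _ _ (fun c hc => (hq c (Or.inr hc)).symm)
          (fun c hc => (hq c (Or.inl hc)).symm)
            (fun v v' hv => (ih' g g' v' v h hv.symm).symm) false
    have : (∀ v ∈ C, ce K C r m φ B g v = true) ↔ ∀ v ∈ C', ce K C' r m φ B g' v = true := by
      rw [← not_iff_not]
      push Not
      simp only [Bool.not_eq_true]
      exact h1
    have e : ce K C r m (Form.box φ) B g w = ce K C' r m (Form.box φ) B g' w' := by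
      rw [Bool.eq_iff_iff, ce_box, ce_box, this]
    rw [e]
    rfl
  | bind x φ ih =>
    intro hφ hA hQ B g g' w w' h h'
    exact ih hφ hA.2 hQ (x :: B) _ _ w w' (h.update h' x) (h'.update x)
  | atNom i φ ih => intro h; exact h.elim
  | atVar i φ ih => intro h; exact h.elim

end Inv

/-- Truth is invariant under isomorphism. -/
theorem transport_ce {A : Finset ℕ} {K K2 : Model} {C : Set K.W} {C2 : Set K2.W} (e : K.W → K2.W)
    (he : Set.MapsTo e C C2) (hinj : Set.InjOn e C) (hsurj : Set.SurjOn e C C2)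
    (hV : ∀ i ∈ A, ∀ v ∈ C, K.V i v ↔ K2.V i (e v))
    (hn : ∀ i ∈ A, ∀ v ∈ C, v = K.nm i ↔ e v = K2.nm i) {r r2 : Prop} (hr : r ↔ r2)
    (m : Form 𝔅 → List ℕ → Bool → Prop) :
    ∀ φ : Form 𝔅, NoAt φ → Names A φ → ∀ (B : List ℕ) (g : ℕ → K.W) (g2 : ℕ → K2.W),
      (∀ x ∈ A, ∀ v ∈ C, v = g x ↔ e v = g2 x) → ∀ w ∈ C,
        ce K C r m φ B g w = ce K2 C2 r2 m φ B g2 (e w) := by
  have hr' : r = r2 := propext hr
  subst hr'
  intro φ
  induction φ with
  | prop i =>
    intro _ hA B g g2 _ w hw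
    rw [Bool.eq_iff_iff]
    simp only [ce, decide_eq_true_eq]
    exact hV i hA w hw
  | nom i =>
    intro _ hA B g g2 _ w hw
    rw [Bool.eq_iff_iff]
    simp only [ce, decide_eq_true_eq]
    exact hn i hA w hw
  | var x =>
    intro _ hA B g g2 h w hw
    rw [Bool.eq_iff_iff]
    simp only [ce, decide_eq_true_eq]
    exact h x hA w hw
  | app b φ ih =>
    intro hφ hA B g g2 h w hw
    rw [ce, ce]
    congr 1
    funext i
    exact ih i (hφ i) (hA i) B g g2 h w hw
  | dia φ ih =>
    intro hφ hA B g g2 h w hw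
    rw [Bool.eq_iff_iff, ce_dia, ce_dia]
    refine or_congr_right (and_congr_right fun _ => ?_)
    constructor
    · rintro ⟨v, hv, h1⟩
      exact ⟨e v, he hv, by rw [← ih hφ hA B g g2 h v hv]; exact h1⟩
    · rintro ⟨v', hv', h1⟩
      obtain ⟨v, hv, rfl⟩ := hsurj hv'
      exact ⟨v, hv, by rw [ih hφ hA B g g2 h v hv]; exact h1⟩
  | box φ ih =>
    intro hφ hA B g g2 h w hw
    rw [Bool.eq_iff_iff, ce_box, ce_box]
    refine and_congr_right fun _ => imp_congr_right fun _ => ?_
    constructor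
    · intro h1 v' hv'
      obtain ⟨v, hv, rfl⟩ := hsurj hv'
      rw [← ih hφ hA B g g2 h v hv]
      exact h1 v hv
    · intro h1 v hv
      rw [ih hφ hA B g g2 h v hv]
      exact h1 _ (he hv)
  | bind x φ ih =>
    intro hφ hA B g g2 h w hw
    refine ih hφ hA.2 (x :: B) _ _ (fun y hy v hv => ?_) w hw
    by_cases hyx : y = x
    · subst hyx
      rw [Function.update_self, Function.update_self]
      exact ⟨fun h => by rw [h], fun h => hinj hv hw h⟩
    · rw [Function.update_of_ne hyx, Function.update_of_ne hyx]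
      exact h y hy v hv
  | atNom i φ ih => intro h; exact h.elim
  | atVar i φ ih => intro h; exact h.elim

theorem length_flatMap_le {τ τ' : Type} (L : List τ) (f : τ → List τ') (k : τ → ℕ)
    (h : ∀ p, (f p).length ≤ k p) : (L.flatMap f).length ≤ (L.map k).sum := by
  induction L with
  | nil => simp
  | cons a L ih =>
    rw [List.flatMap_cons, List.length_append, List.map_cons, List.sum_cons]
    exact Nat.add_le_add (h a) ih

theorem sum_map_const_two {τ : Type} (L : List τ) : (L.map fun _ => 2).sum = 2 * L.length := by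
  induction L with
  | nil => simp
  | cons a L ih =>
    rw [List.map_cons, List.sum_cons, ih, List.length_cons]
    ring

theorem sum_map_two_mul {τ : Type} (L : List τ) (k : τ → ℕ) :
    (L.map fun p => 2 * k p).sum = 2 * (L.map k).sum := by
  induction L with
  | nil => simp
  | cons a L ih =>
    rw [List.map_cons, List.sum_cons, ih, List.map_cons, List.sum_cons]
    ring

/-- a finite part of the cluster -/
theorem small_ce (haff : ∀ b : 𝔅.B, Affine (𝔅.ev b)) (K : Model) (C : Set K.W) (r : Prop)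
    (m : Form 𝔅 → List ℕ → Bool → Prop) (g0 : ℕ → K.W) (o : K.W) (A : Finset ℕ)
    (L : List (Form 𝔅 × List ℕ)) (c0 : K.W) (hc0 : c0 ∈ C) (ho : o ∉ C)
    (hL : ∀ p ∈ L, NoAt p.1 ∧ Names A p.1) :
    ∃ C' : Finset K.W, c0 ∈ C' ∧ (↑C' : Set K.W) ⊆ C ∧
      C'.card ≤ 1 + 2 * A.card + 2 * L.length +
        2 * (L.map fun p => (pr p.1).length).sum * (2 * A.card + 1) ∧
      (∀ i ∈ A, K.nm i ∈ C → K.nm i ∈ C') ∧ (∀ x ∈ A, g0 x ∈ C → g0 x ∈ C') ∧
      ∀ p ∈ L, (∀ u ∈ C', ce K C r m p.1 p.2 (dg g0 o p.2) u =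
          ce K ↑C' r m p.1 p.2 (dg g0 o p.2) u) ∧
        ∀ b, (∃ v ∈ C, ce K C r m p.1 p.2 (dg g0 o p.2) v = b) →
          ∃ u ∈ C', ce K C r m p.1 p.2 (dg g0 o p.2) u = b := by
  classical
  set wit : Form 𝔅 × List ℕ → Bool → K.W := fun p b =>
    if h : ∃ v ∈ C, ce K C r m p.1 p.2 (dg g0 o p.2) v = b then h.choose else c0 with hwit
  have hwC : ∀ p b, wit p b ∈ C := by
    intro p b
    simp only [hwit]
    split_ifs with h
    · exact h.choose_spec.1
    · exact hc0
  have hwb : ∀ p b, (∃ v ∈ C, ce K C r m p.1 p.2 (dg g0 o p.2) v = b) →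
      ce K C r m p.1 p.2 (dg g0 o p.2) (wit p b) = b := by
    intro p b h
    simp only [hwit]
    rw [dif_pos h]
    exact h.choose_spec.2
  set T : Finset K.W := (L.flatMap fun p => [wit p true, wit p false]).toFinset with hT
  have hTC : (↑T : Set K.W) ⊆ C := by
    intro v hv
    rw [hT, Finset.mem_coe, List.mem_toFinset, List.mem_flatMap] at hv
    obtain ⟨p, _, h2⟩ := hv
    simp only [List.mem_cons, List.not_mem_nil, or_false] at h2
    rcases h2 with rfl | rfl
    · exact hwC _ _
    · exact hwC _ _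
  have hTc : T.card ≤ 2 * L.length := by
    rw [hT, ← sum_map_const_two]
    exact (List.toFinset_card_le _).trans (length_flatMap_le _ _ _ fun p => by simp)
  have hTm : ∀ p ∈ L, ∀ b, wit p b ∈ T := by
    intro p hp b
    rw [hT, List.mem_toFinset, List.mem_flatMap]
    refine ⟨p, hp, ?_⟩
    cases b <;> simp
  set S0 : Finset K.W := ({c0} ∪ (((A.image K.nm).filter (· ∈ C)) ∪ ((A.image g0).filter (· ∈ C)))) ∪ T
    with hS0
  have hS0C : (↑S0 : Set K.W) ⊆ C := by
    intro v hv
    rw [hS0, Finset.coe_union] at hv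
    rcases hv with hv | hv
    · simp only [Finset.coe_union, Finset.coe_singleton, Finset.coe_filter, Set.mem_union,
        Set.mem_singleton_iff, Set.mem_ofPred_eq] at hv
      rcases hv with rfl | hv | hv
      · exact hc0
      · exact hv.2
      · exact hv.2
    · exact hTC hv
  have hcS : S0.card ≤ 1 + 2 * A.card + 2 * L.length := by
    refine (Finset.card_union_le _ _).trans ?_
    have h0 := Finset.card_union_le ({c0} : Finset K.W)
      (((A.image K.nm).filter (· ∈ C)) ∪ ((A.image g0).filter (· ∈ C)))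
    have h1 : ((A.image K.nm).filter (· ∈ C)).card ≤ A.card :=
      (Finset.card_filter_le _ _).trans Finset.card_image_le
    have h2 : ((A.image g0).filter (· ∈ C)).card ≤ A.card :=
      (Finset.card_filter_le _ _).trans Finset.card_image_le
    have h3 := Finset.card_union_le ((A.image K.nm).filter (· ∈ C)) ((A.image g0).filter (· ∈ C))
    rw [Finset.card_singleton] at h0
    omega
  set P : List ((K.W → Bool) × Bool) := L.flatMap fun p =>
    (qfl K p.1).flatMap fun f => [(f, true), (f, false)] with hP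
  have hPl : P.length ≤ 2 * (L.map fun p => (pr p.1).length).sum := by
    rw [hP, ← sum_map_two_mul]
    refine length_flatMap_le _ _ _ fun p => ?_
    rw [List.length_flatMap]
    have := length_qfl K p.1
    simp only [List.length_cons, List.length_nil, List.map_const', List.sum_replicate,
      smul_eq_mul]
    omega
  have hPmem : ∀ p ∈ L, ∀ f ∈ qfl K p.1, ∀ c, (f, c) ∈ P := by
    intro p hp f hf c
    rw [hP, List.mem_flatMap]
    refine ⟨p, hp, ?_⟩
    rw [List.mem_flatMap]
    exact ⟨f, hf, by cases c <;> simp⟩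
  obtain ⟨S, hS1, hSC, hSc, hgood⟩ := process A.card C P.length P rfl S0 hS0C
  obtain ⟨C', h1, h2, h3, h4⟩ := shrink A.card C S hSC P hgood
  have hS1' : ∀ v, v ∈ S0 → v ∈ C' := fun v hv => h1 (hS1 hv)
  have hnS : ∀ i ∈ A, K.nm i ∈ C → K.nm i ∈ (↑S : Set K.W) := by
    intro i hi h
    apply hS1
    rw [hS0]
    refine Finset.mem_union_left _ (Finset.mem_union_right _ (Finset.mem_union_left _ ?_))
    rw [Finset.mem_filter]
    exact ⟨Finset.mem_image_of_mem _ hi, h⟩
  have hgS : ∀ x ∈ A, g0 x ∈ C → g0 x ∈ (↑S : Set K.W) := by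
    intro i hi h
    apply hS1
    rw [hS0]
    refine Finset.mem_union_left _ (Finset.mem_union_right _ (Finset.mem_union_right _ ?_))
    rw [Finset.mem_filter]
    exact ⟨Finset.mem_image_of_mem _ hi, h⟩
  have hSC' : (↑S : Set K.W) ⊆ ↑C' := fun v hv => h1 hv
  refine ⟨C', hS1' _ ?_, h2, ?_, fun i hi h => hSC' (hnS i hi h), fun x hx h => hSC' (hgS x hx h),
    fun p hp => ⟨fun u hu => ?_, fun b hb => ?_⟩⟩
  · rw [hS0]
    exact Finset.mem_union_left _ (Finset.mem_union_left _ (Finset.mem_singleton_self _))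
  · have e1 : P.length * A.card + P.length * (A.card + 1) = P.length * (2 * A.card + 1) := by ring
    have e2 := Nat.mul_le_mul_right (2 * A.card + 1) hPl
    omega
  · have hdg : ∀ x ∈ A, dg g0 o p.2 x ∈ C → dg g0 o p.2 x ∈ (↑S : Set K.W) := by
      intro x hx h
      unfold dg at h ⊢
      split_ifs at h ⊢ with h5
      · exact (ho h).elim
      · exact hgS x hx h
    have hmt : Mt A ↑S C ↑C' (dg g0 o p.2) (dg g0 o p.2) :=
      ⟨fun x hx => ⟨fun h => hSC' (hdg x hx h), fun h => h2 h⟩, fun _ _ _ => rfl,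
        fun _ _ _ _ _ _ => Iff.rfl⟩
    have hms : Ms A ↑S C ↑C' (dg g0 o p.2) (dg g0 o p.2) u u :=
      ⟨h2 hu, hu, fun _ => rfl, fun _ _ => Iff.rfl⟩
    have hQ : ∀ f ∈ qfl K p.1, ∀ c,
        ((∃ v ∈ C \ ↑S, f v = c) ∨ (∃ v ∈ (↑C' : Set K.W) \ ↑S, f v = c)) →
        Many A.card (C \ ↑S) f c ∧ Many A.card (↑C' \ ↑S) f c := by
      intro f hf c hne
      have hne' : ∃ v ∈ C \ ↑S, f v = c := by
        rcases hne with h | ⟨v, hv, h⟩
        · exact h
        · exact ⟨v, ⟨h2 hv.1, hv.2⟩, h⟩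
      exact ⟨hgood _ (hPmem p hp f hf c) hne', h4 _ (hPmem p hp f hf c) hne'⟩
    have key := inv_ce haff hSC hSC' hnS (fun i hi h => hnS i hi (h2 h)) r m p.1 (hL p hp).1
      (hL p hp).2 hQ p.2 _ _ u u hmt hms
    revert key
    cases ce K C r m p.1 p.2 (dg g0 o p.2) u <;>
      cases ce K ↑C' r m p.1 p.2 (dg g0 o p.2) u <;> cases tp K p.1 u <;> simp
  · exact ⟨wit p b, hS1' _ (Finset.mem_union_right _ (hTm p hp b)), hwb p b hb⟩

theorem lk_dead (B : List ℕ) (l : List (ℕ × ℕ)) (d x : ℕ) :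
    lk (B.map (fun y => (y, d)) ++ l) d x = if x ∈ B then d else lk l d x := by
  induction B with
  | nil => simp
  | cons a B ih =>
    rw [List.map_cons, List.cons_append, lk]
    by_cases h : x = a
    · rw [if_pos h, if_pos (by rw [h]; exact List.mem_cons_self)]
    · rw [if_neg h, ih]
      simp only [List.mem_cons, h, false_or]

theorem lk_default {l : List (ℕ × ℕ)} {d x : ℕ} (h : ∀ p ∈ l, p.1 ≠ x) : lk l d x = d := by
  induction l with
  | nil => rfl
  | cons p l ih =>
    rw [lk, if_neg (fun h1 => h p List.mem_cons_self h1.symm)]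
    exact ih fun q hq => h q (List.mem_cons_of_mem _ hq)

open Classical in
theorem lk_part {A : List ℕ} (q : ℕ → Prop) (f : ℕ → ℕ) (d : ℕ) {x : ℕ} (hx : x ∈ A) :
    lk ((A.filter fun i => decide (q i)).map fun i => (i, f i)) d x = if q x then f x else d := by
  split_ifs with h
  · exact lk_map f d (List.mem_filter.2 ⟨hx, decide_eq_true h⟩)
  · refine lk_default fun p hp h1 => h ?_
    rw [List.mem_map] at hp
    obtain ⟨i, hi, rfl⟩ := hp
    rw [List.mem_filter, decide_eq_true_eq] at hi
    rw [← h1]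
    exact hi.2

theorem c2 : C2 := by
  classical
  refine ⟨Polynomial.C 1 + Polynomial.C 4 * Polynomial.X + Polynomial.C 4 * Polynomial.X ^ 2, ?_⟩
  intro 𝔅 haff K C r m g0 o A L hCne hsing ho hL
  obtain ⟨c0, hc0⟩ := hCne
  obtain ⟨C', hcC', hC'C, hcard, hnm, hg, hmain⟩ := small_ce haff K C r m g0 o A L c0 hc0 ho
    fun p hp => ⟨(hL p hp).1, (hL p hp).2.1⟩
  set N0 := C'.card with hN0
  set e : K.W → ℕ := fun v => if hv : v ∈ C' then (C'.equivFin ⟨v, hv⟩ : ℕ) else N0 with he
  have heC : ∀ v ∈ C', e v < N0 := by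
    intro v hv
    simp only [he, hv, dif_pos]
    exact (C'.equivFin ⟨v, hv⟩).2
  have heN : ∀ v, v ∉ C' → e v = N0 := by
    intro v hv
    simp only [he, hv, dif_neg, not_false_eq_true]
  have hinj : Set.InjOn e (↑C' : Set K.W) := by
    intro v hv u hu h1
    have hv' : v ∈ C' := hv
    have hu' : u ∈ C' := hu
    simp only [he, hv', hu', dif_pos] at h1
    have := C'.equivFin.injective (Fin.ext h1)
    exact congrArg Subtype.val this
  have hsurj : ∀ k < N0, ∃ v ∈ C', e v = k := by
    intro k hk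
    refine ⟨(C'.equivFin.symm ⟨k, hk⟩ : K.W), (C'.equivFin.symm ⟨k, hk⟩).2, ?_⟩
    simp only [he, Finset.coe_mem, dif_pos, Subtype.coe_eta, Equiv.apply_symm_apply]
  have heq : ∀ v ∈ C', ∀ u, v = u ↔ e v = e u := by
    intro v hv u
    constructor
    · rintro rfl; rfl
    · intro h1
      by_cases hu : u ∈ C'
      · exact hinj hv hu h1
      · have := heC v hv
        rw [h1, heN u hu] at this
        omega
  set Al := A.toList with hAl
  have hAmem : ∀ i, i ∈ Al ↔ i ∈ A := fun i => by rw [hAl, Finset.mem_toList]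
  have hAll : Al.length = A.card := by rw [hAl, Finset.length_toList]
  set props : List (ℕ × ℕ) := (Al ×ˢ List.range N0).filter
    (fun p => decide (∃ v ∈ C', e v = p.2 ∧ K.V p.1 v)) with hprops
  set noms : List (ℕ × ℕ) := (Al.filter fun i => decide (K.nm i ∈ C)).map
    fun i => (i, e (K.nm i)) with hnoms
  set l : List (ℕ × ℕ) := (Al.filter fun i => decide (g0 i ∈ C)).map
    fun i => (i, e (g0 i)) with hl
  have lkn : ∀ i ∈ A, lk noms N0 i = e (K.nm i) := by
    intro i hi
    rw [hnoms, lk_part (fun i => K.nm i ∈ C) (fun i => e (K.nm i)) N0 ((hAmem i).2 hi)]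
    split_ifs with h
    · rfl
    · exact (heN _ fun h1 => h (hC'C h1)).symm
  have lkl : ∀ i ∈ A, lk l N0 i = e (g0 i) := by
    intro i hi
    rw [hl, lk_part (fun i => g0 i ∈ C) (fun i => e (g0 i)) N0 ((hAmem i).2 hi)]
    split_ifs with h
    · rfl
    · exact (heN _ fun h1 => h (hC'C h1)).symm
  refine ⟨(decide r, (N0, props, noms), l), by simp, ?_, ?_, ?_, ⟨?_, ?_⟩, ⟨?_, ?_⟩, ⟨?_, ?_⟩,
    ?_, ?_, ?_⟩
  · by_cases hr : r
    · exact Or.inl (decide_eq_true hr)
    · right
      show N0 = 1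
      rw [hN0, Finset.card_eq_one]
      refine ⟨c0, ?_⟩
      ext v
      rw [Finset.mem_singleton]
      exact ⟨fun hv => hsing hr v (hC'C hv) c0 hc0, fun hv => hv ▸ hcC'⟩
  · exact Finset.card_pos.2 ⟨c0, hcC'⟩
  · show N0 ≤ _
    simp only [Polynomial.eval_add, Polynomial.eval_mul, Polynomial.eval_C, Polynomial.eval_X,
      Polynomial.eval_pow]
    refine hcard.trans ?_
    set s := (L.map fun p => (pr p.1).length).sum
    nlinarith [Nat.zero_le (A.card * A.card), Nat.zero_le (A.card * s), Nat.zero_le (s * s),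
      Nat.zero_le (L.length * s), Nat.zero_le (L.length * A.card), Nat.zero_le (L.length * L.length)]
  · show props.length ≤ A.card * N0
    rw [hprops]
    refine (List.length_filter_le _ _).trans ?_
    rw [List.length_product, List.length_range, hAll]
  · intro p hp
    change p ∈ props at hp
    rw [hprops, List.mem_filter, List.mem_product, List.mem_range] at hp
    exact ⟨(hAmem _).1 hp.1.1, hp.1.2⟩
  · show noms.length ≤ A.card
    rw [hnoms, List.length_map, ← hAll]
    exact List.length_filter_le _ _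
  · intro p hp
    change p ∈ noms at hp
    rw [hnoms, List.mem_map] at hp
    obtain ⟨i, hi, rfl⟩ := hp
    rw [List.mem_filter, decide_eq_true_eq] at hi
    have hiA := (hAmem _).1 hi.1
    exact ⟨hiA, heC _ (hnm i hiA hi.2), hi.2⟩
  · show l.length ≤ A.card
    rw [hl, List.length_map, ← hAll]
    exact List.length_filter_le _ _
  · intro p hp
    change p ∈ l at hp
    rw [hl, List.mem_map] at hp
    obtain ⟨i, hi, rfl⟩ := hp
    rw [List.mem_filter, decide_eq_true_eq] at hi
    have hiA := (hAmem _).1 hi.1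
    exact ⟨hiA, heC _ (hg i hiA hi.2), hi.2⟩
  · intro i hi h
    show lk noms N0 i < N0
    rw [lkn i hi]
    exact heC _ (hnm i hi h)
  · intro i hi h
    show lk l N0 i < N0
    rw [lkl i hi]
    exact heC _ (hg i hi h)
  · intro p hp b
    obtain ⟨hp1, hp2, hp3⟩ := hL p hp
    obtain ⟨hm1, hm2⟩ := hmain p hp
    have key : ∀ u ∈ C', ce K ↑C' r m p.1 p.2 (dg g0 o p.2) u =
        cec (decide r, (N0, props, noms), l) m p.1 p.2
          (envc (decide r, (N0, props, noms), l) p.2) (e u) := by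
      intro u hu
      unfold cec
      refine transport_ce (A := A) (K := K) (K2 := KD (N0, props, noms)) (C := (↑C' : Set K.W))
        (C2 := CD (N0, props, noms)) e (fun v hv => heC v hv) hinj
        (fun k hk => by
          obtain ⟨v, hv, h1⟩ := hsurj k hk
          exact ⟨v, hv, h1⟩) ?_ ?_ (by simp) m p.1 hp1 hp2 p.2 _ _ ?_ u hu
      · intro i hi v hv
        show K.V i v ↔ (i, e v) ∈ props
        rw [hprops, List.mem_filter, List.mem_product, List.mem_range, decide_eq_true_iff]
        constructor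
        · intro h1
          exact ⟨⟨(hAmem i).2 hi, heC v hv⟩, v, hv, rfl, h1⟩
        · rintro ⟨_, u, hu, h1, h2⟩
          rw [← hinj hu hv h1]
          exact h2
      · intro i hi v hv
        show v = K.nm i ↔ e v = lk noms N0 i
        rw [lkn i hi]
        exact heq v hv _
      · intro x hx v hv
        show v = dg g0 o p.2 x ↔ e v = lk (p.2.map (fun x => (x, N0)) ++ l) N0 x
        rw [lk_dead]
        unfold dg
        split_ifs with h
        · rw [heq v hv, heN o fun h1 => ho (hC'C h1)]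
        · rw [lkl x hx]
          exact heq v hv _
    constructor
    · rintro ⟨u, hu, hub⟩
      obtain ⟨v, hv, rfl⟩ := hsurj u hu
      exact ⟨v, hC'C hv, by rw [hm1 v hv, key v hv]; exact hub⟩
    · intro h
      obtain ⟨u, hu, hub⟩ := hm2 b h
      exact ⟨e u, heC u hu, by rw [← key u hu, ← hm1 u hu]; exact hub⟩

end Pool.Agent.Helper62K6.TR
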