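import Pool.Agent.H75C.HY.TRG
import Pool.Agent.H75C.HY.GameFin

/-!
# The game from a certificate: phases 2 and 3
-/

set_option autoImplicit false
set_option synthInstance.maxSize 4000

namespace Pool.Agent.Helper62K6.TR

open Pool.Agent.NPC Pool.Agent.H75C.HY Pool.Agent.H75C.HY.TR

variable {𝔅 : Base}

theorem length_pairBits (x y : List Bool) :
    (pairBits x y).length = 2 * x.length + 1 + y.length := by
  unfold pairBits
  rw [List.length_append, List.length_cons, List.length_flatMap]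
  have : (List.map (fun b => ([true, b] : List Bool).length) x).sum = 2 * x.length := by
    induction x with
    | nil => rfl
    | cons a x ih =>
      rw [List.map_cons, List.sum_cons, ih]
      simp only [List.length_cons, List.length_nil]
      omega
  rw [this]
  omega

/-- A message of length `W` that codes given data. -/
theorem exists_code {α : Type} [TEnc α] [TDec α] (d : α) {W : ℕ} (h : 2 * sz d + 1 ≤ W) :
    ∃ M : List Bool, M.length = W ∧ unbits α (unpair M).1 = some d := by
  refine ⟨pairBits (bits d) (List.replicate (W - (2 * (bits d).length + 1)) false), ?_, ?_⟩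
  · rw [length_pairBits, List.length_replicate, bits_length]
    omega
  · rw [unpair_pairBits]
    exact unbits_bits _

theorem vz_mono {L W : ℕ} (h : L ≤ W) {Z : List ℕ} (hz : vz L Z = true) : vz W Z = true := by
  unfold vz at *
  simp only [Bool.and_eq_true, decide_eq_true_eq, List.all_eq_true] at *
  exact ⟨hz.1.trans h, fun z hz' => (hz.2 z hz').trans_le h⟩

theorem vf_mono {w : List Tok} {L W : ℕ} (h : L ≤ W) {m : Fls} (hz : vf w L m = true) :
    vf w W m = true := by
  unfold vf at *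
  simp only [Bool.and_eq_true, decide_eq_true_eq, List.all_eq_true] at *
  exact ⟨hz.1.trans h, hz.2⟩

theorem vl_mono {w : List Tok} {L W : ℕ} (h : L ≤ W) {l : List (ℕ × ℕ)} (hz : vl w L l = true) :
    vl w W l = true := by
  unfold vl at *
  simp only [Bool.and_eq_true, decide_eq_true_eq, List.all_eq_true] at *
  exact ⟨hz.1.trans h, fun z hz' => ⟨(hz.2 z hz').1, (hz.2 z hz').2.trans_le h⟩⟩

theorem vcl_mono {w : List Tok} {L W : ℕ} (h : L ≤ W) {c : Cl} (hz : vcl w L c = true) :
    vcl w W c = true := by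
  unfold vcl at *
  simp only [Bool.and_eq_true, decide_eq_true_eq] at *
  exact ⟨⟨⟨hz.1.1.1.trans h, vl_mono h hz.1.1.2⟩, vl_mono h hz.1.2⟩, vl_mono h hz.2⟩

theorem vsp_mono {w : List Tok} {L W : ℕ} (h : L ≤ W) {s : Sp} (hz : vsp w L s = true) :
    vsp w W s = true := by
  unfold vsp at *
  simp only [Bool.and_eq_true] at *
  exact ⟨⟨vcl_mono h hz.1.1, vz_mono h hz.1.2⟩, vf_mono h hz.2⟩

theorem vsp_N {w : List Tok} {L : ℕ} {s : Sp} (hz : vsp w L s = true) : N s.1 ≤ L := by
  unfold vsp vcl at hz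
  simp only [Bool.and_eq_true, decide_eq_true_eq] at hz
  exact hz.1.1.1.1.1

theorem vk_len {w : List Tok} {k : Key} (h : vk w k = true) : k.1.length ≤ w.length := by
  unfold vk at h
  simp only [Bool.and_eq_true, decide_eq_true_eq] at h
  exact h.1.1.1

theorem vk_mem {w : List Tok} {k : Key} (h : vk w k = true) : ∀ t ∈ k.1, t ∈ w := by
  unfold vk at h
  simp only [Bool.and_eq_true, decide_eq_true_eq, List.all_eq_true] at h
  exact h.1.1.2

theorem subb_iff {α : Type} [DecidableEq α] {l l' : List α} :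
    subb l l' = true ↔ ∀ a ∈ l, a ∈ l' := by
  unfold subb
  simp only [List.all_eq_true, decide_eq_true_eq]

theorem sp_mem {SC : List Sp} {i : ℕ} (h : i < SC.length) : sp SC i ∈ SC := by
  unfold sp
  rw [List.getD_eq_getElem _ _ h]
  exact List.getElem_mem h

theorem getD_mem' {α : Type} {l : List α} {i : ℕ} (d : α) (h : i < l.length) : l.getD i d ∈ l := by
  rw [List.getD_eq_getElem _ _ h]
  exact List.getElem_mem h

section

variable {E : ℕ → List Bool → Bool} {K : ℕ → ℕ} {argX : List Tok → ℕ → List Tok}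
  {wf : List Tok → Bool} {w : List Tok} {W L : ℕ} {J : List Key} {SC : List Sp}

/-- What is used of `D2`. -/
structure Hv (𝔅 : Base) (E : ℕ → List Bool → Bool) (K : ℕ → ℕ) (argX : List Tok → ℕ → List Tok)
    (wf : List Tok → Bool) (w : List Tok) (W : ℕ) : Prop where
  wff : ∀ w : List Tok, wf w = true ↔ ∃ φ : Form 𝔅, NoAt φ ∧ pr φ = w
  fin : ∀ (r : Bool) (n : ℕ), GV (tstep E K argX wf w) tout W n (fin r) ↔ r = true
  ev : ∀ (c : Cl) (mc : Fls), N c ≤ W → ∀ ψ : Form 𝔅, NoAt ψ → ∀ (B : List ℕ) (v : ℕ) (b : Bool)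
    (n : ℕ), v < N c → (pr ψ).length ≤ n → (∀ t ∈ pr ψ, t ∈ w) → kv c mc ψ B v = b →
      GV (tstep E K argX wf w) tout W n (evS c mc (pr ψ, B) v b)

theorem Hv.of_D2 (h2 : D2) (hFS : FS 𝔅 E K argX wf) (har : ∀ b : 𝔅.B, 𝔅.ar b < W) :
    Hv 𝔅 E K argX wf w W where
  wff := hFS.wf
  fin := (h2 𝔅 E K argX wf hFS w W har).1
  ev := fun c mc hN ψ hψ B v b n hv hn ht hk =>
    ((h2 𝔅 E K argX wf hFS w W har).2.1 c mc hN ψ hψ B v b n hv).2 hn ht hk

/-- The attacks against `Loc` fail. -/
theorem Hv.att (hv : Hv 𝔅 E K argX wf w W) (hJ : ∀ k ∈ J, vk w k = true) {c : Cl} {mc m : Fls}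
    (hN : N c ≤ W) (hloc : Loc 𝔅 J c mc m) {n : ℕ} (hn : w.length ≤ n) (k u : ℕ) (b : Bool) :
    GV (tstep E K argX wf w) tout W n (att wf w J c mc m k u b) := by
  unfold TR.att
  by_cases h : k < J.length ∧ u < N c ∧ wf (J.getD k ([], [])).1 = true ∧
      (J.getD k ([], []), b) ∉ m
  · rw [if_pos h]
    obtain ⟨h1, h2, h3, h4⟩ := h
    have hmem : J.getD k ([], []) ∈ J := getD_mem' _ h1
    have hvk := hJ _ hmem
    rw [if_pos hvk]
    obtain ⟨ψ, hψ, hpr⟩ := (hv.wff _).1 h3
    have e : J.getD k ([], []) = (pr ψ, (J.getD k ([], [])).2) := by rw [hpr]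
    have hlen := vk_len hvk
    have htok := vk_mem hvk
    rw [← hpr] at hlen htok
    rw [e] at hmem h4 ⊢
    refine hv.ev c mc hN ψ hψ _ u (!b) n h2 (hlen.trans hn) htok ?_
    have h5 := hloc ψ _ b hψ hmem h4 u h2
    revert h5
    cases kv c mc ψ (J.getD k ([], [])).2 u <;> cases b <;> simp
  · rw [if_neg h]
    exact (hv.fin true n).2 rfl

/-- Phases 2 and 3. -/
theorem Hv.phase2 (hv : Hv 𝔅 E K argX wf w W) (hLW : L ≤ W)
    (hsz : ∀ (sel : Bool) (i u : ℕ) (s : Sp) (u0 : ℕ), i < L → u < L → u0 < L →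
      vsp w L s = true → 2 * sz (((sel, i, u), s.1, s.2.1, s.2.2, u0) : An) + 1 ≤ W)
    (hJ : ∀ k ∈ J, vk w k = true) (hSCL : SC.length ≤ L) (hSC : ∀ s ∈ SC, vsp w L s = true) :
    ∀ (n : ℕ) (Z : List ℕ) (m : Fls), OKc 𝔅 J SC Z m →
      Gd 𝔅 (fun c Z m => vsp w L (c, Z, m) = true) J SC n Z m → ∀ R, 2 * n + w.length ≤ R →
      GV (tstep E K argX wf w) tout W R ((none, 2), (SC, J), (Z, m, (([], []), false)), ev0) := by
  intro n
  induction n with
  | zero => intro Z m _ h; exact h.elim
  | succ n ih =>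
    intro Z m hok hgd R hR
    obtain ⟨R, rfl⟩ : ∃ R', R = R' + 2 := ⟨R - 2, by omega⟩
    have hwR : w.length ≤ R := by omega
    have hspec : ∀ i < SC.length, vsp w W (sp SC i) = true ∧ N (cl SC i) ≤ L := fun i hi =>
      ⟨vsp_mono hLW (hSC _ (sp_mem hi)), vsp_N (hSC _ (sp_mem hi))⟩
    rw [GV]
    refine ⟨List.replicate W false, by simp, fun M' _ => ?_⟩
    change GV (tstep E K argX wf w) tout W (R + 1) (ph2 wf w SC J Z m (chl M').2.2.2.1)
    set k := (chl M').2.2.2.1
    unfold ph2
    by_cases hk : k < m.length ∧ (m.getD k (([], []), false)).1 ∈ J ∧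
        wf (m.getD k (([], []), false)).1.1 = true
    swap
    · rw [if_neg hk]
      exact (hv.fin true _).2 rfl
    rw [if_pos hk]
    obtain ⟨hk1, hk2, hk3⟩ := hk
    have hvk := hJ _ hk2
    rw [if_pos hvk]
    obtain ⟨ψ, hψ, hpr⟩ := (hv.wff _).1 hk3
    set B := (m.getD k (([], []), false)).1.2 with hB
    set b := (m.getD k (([], []), false)).2 with hb
    have e : m.getD k (([], []), false) = ((pr ψ, B), b) := by rw [hpr]
    have hlen := vk_len hvk
    have htok := vk_mem hvk
    have hkm := getD_mem' (([], []), false) hk1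
    rw [← hpr] at hlen htok
    rw [e] at hk2 hkm hvk ⊢
    have hlenR : (pr ψ).length ≤ R := hlen.trans hwR
    rw [GV]
    rcases hgd ψ B b hψ hk2 hkm with ⟨i, hi, u, hu, hval⟩ |
      ⟨c, Z', m', hbd, hclok, hno, hen, hZ', hm', hok', hloc, ⟨u, hu, hval⟩, hnext⟩
    · have hiS := (hok i hi).1
      obtain ⟨hs1, hs2⟩ := hspec i hiS
      obtain ⟨M, hM, hcode⟩ := exists_code (((false, i, u), (sp SC i).1, (sp SC i).2.1,
        (sp SC i).2.2, 0) : An) (hsz false i u (sp SC i) 0 (hiS.trans_le hSCL) (hu.trans_le hs2)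
          ((Nat.zero_le i).trans_lt (hiS.trans_le hSCL)) (hSC _ (sp_mem hiS)))
      refine ⟨M, hM, fun M' _ => ?_⟩
      change GV (tstep E K argX wf w) tout W R (ph3 wf w SC J Z m ((pr ψ, B), b) M (chl M'))
      unfold ph3
      rw [hcode]
      simp only [hvk, Bool.true_eq_false, if_false, if_true]
      rw [if_pos ⟨hi, hu, by rw [hM]; exact hs1⟩]
      exact hv.ev _ _ (hs2.trans hLW) ψ hψ B u b R hu hlenR htok hval
    · have hNc : N c ≤ L := vsp_N (s := (c, Z', m')) hbd
      have h0L : 0 < L := (Nat.zero_le u).trans_lt (hu.trans_le hNc)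
      obtain ⟨M, hM, hcode⟩ := exists_code (((true, 0, 0), c, Z', m', u) : An)
        (hsz true 0 0 (c, Z', m') u h0L h0L (hu.trans_le hNc) hbd)
      refine ⟨M, hM, fun M' _ => ?_⟩
      change GV (tstep E K argX wf w) tout W R (ph3 wf w SC J Z m ((pr ψ, B), b) M (chl M'))
      unfold ph3
      rw [hcode]
      simp only [hvk, Bool.true_eq_false, if_false]
      have hcb : clokb c = true := by
        unfold clokb
        rcases hclok with h | h
        · rw [h]; rfl
        · rw [decide_eq_true h, Bool.or_true]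
      rw [if_pos ⟨hcb, hno, hen, subb_iff.2 hZ', subb_iff.2 hm', hu, by
        rw [hM]; exact hNc.trans hLW⟩]
      set x := chl M'
      by_cases x0 : x.1 = 0
      · rw [if_pos x0]
        exact hv.ev _ _ (hNc.trans hLW) ψ hψ B u b R hu hlenR htok hval
      rw [if_neg x0]
      by_cases x1 : x.1 = 1
      · rw [if_pos x1]
        exact hv.att hJ (hNc.trans hLW) hloc hwR _ _ _
      rw [if_neg x1]
      by_cases x2 : x.1 = 2
      · rw [if_pos x2]
        by_cases hx : x.2.2.1 ∈ Z'
        · rw [if_pos hx]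
          obtain ⟨q1, q2, q3, _⟩ := hok' _ hx
          rw [hv.fin, Bool.and_eq_true, Bool.and_eq_true, decide_eq_true_eq, subb_iff, subb_iff]
          exact ⟨⟨q1, q2⟩, q3⟩
        · rw [if_neg hx]
          exact (hv.fin true _).2 rfl
      rw [if_neg x2]
      by_cases x3 : x.1 = 3
      · rw [if_pos x3]
        by_cases hx : x.2.2.1 ∈ Z'
        · rw [if_pos hx]
          obtain ⟨q1, _, _, q4⟩ := hok' _ hx
          obtain ⟨hs1, hs2⟩ := hspec _ q1
          rw [if_pos (by rw [hM]; exact hs1)]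
          exact hv.att hJ (hs2.trans hLW) q4 hwR _ _ _
        · rw [if_neg hx]
          exact (hv.fin true _).2 rfl
      rw [if_neg x3]
      by_cases x4 : x.1 = 4
      · rw [if_pos x4]
        by_cases hx : subb Z Z' = true ∧ subb m m' = true
        · rw [if_pos hx]
          exact (hv.fin true _).2 rfl
        · rw [if_neg hx]
          rcases hnext with h | h
          · exact (hx ⟨subb_iff.2 h.1, subb_iff.2 h.2⟩).elim
          · exact ih Z' m' hok' h R (by omega)
      · rw [if_neg x4]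
        exact (hv.fin true _).2 rfl

end

end Pool.Agent.Helper62K6.TR
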