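import Pool.Agent.H75C.HY.TR

/-!
# The evaluation in a cluster depends on the flags of the needed keys only; the list of all keys
-/

set_option autoImplicit false

namespace Pool.Agent.Helper62K6.TR

open Pool.Agent.NPC Pool.Agent.H75C.HY Pool.Agent.H75C.HY.TR

variable {𝔅 : Base}

/-- `ce` depends on the flags at the keys in `J` only. -/
theorem ce_need {K : Model} {C : Set K.W} {r : Prop} {m m' : Form 𝔅 → List ℕ → Bool → Prop}
    {J : List Key} (hJ : ∀ (ψ : Form 𝔅) (B : List ℕ), NoAt ψ → (pr ψ, B) ∈ J → Need J ψ B)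
    (hm : ∀ (ψ : Form 𝔅) (B : List ℕ) (b : Bool), NoAt ψ → (pr ψ, B) ∈ J → (m ψ B b ↔ m' ψ B b)) :
    ∀ φ : Form 𝔅, NoAt φ → ∀ B : List ℕ, Need J φ B → ∀ (g : ℕ → K.W) (w : K.W),
      ce K C r m φ B g w = ce K C r m' φ B g w := by
  intro φ
  induction φ with
  | prop i => intro _ B _ g w; rfl
  | nom i => intro _ B _ g w; rfl
  | var x => intro _ B _ g w; rfl
  | app b φ ih =>
    intro h B hN g w
    rw [ce, ce]
    congr 1
    funext i
    exact ih i (h i) B (hN i) g w
  | dia φ ih =>
    intro h B hN g w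
    rw [Bool.eq_iff_iff]
    simp only [ce, decide_eq_true_eq]
    rw [hm φ B true h hN]
    refine or_congr_right (and_congr_right fun _ => exists_congr fun v => and_congr_right fun _ => ?_)
    rw [ih h B (hJ φ B h hN) g v]
  | box φ ih =>
    intro h B hN g w
    rw [Bool.eq_iff_iff]
    simp only [ce, decide_eq_true_eq]
    rw [hm φ B false h hN]
    refine and_congr_right fun _ => imp_congr_right fun _ => forall_congr' fun v =>
      imp_congr_right fun _ => ?_
    rw [ih h B (hJ φ B h hN) g v]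
  | bind x φ ih =>
    intro h B hN g w
    exact ih h (x :: B) hN _ w
  | atNom i φ ih => intro h; exact h.elim
  | atVar i φ ih => intro h; exact h.elim

/-- All arguments of `◇` and `□` with the variables bound there. -/
def keys : Form 𝔅 → List ℕ → List Key
  | .prop _, _ => []
  | .nom _, _ => []
  | .var _, _ => []
  | .app _ φ, B => (List.ofFn (fun i => keys (φ i) B)).flatten
  | .dia φ, B => (pr φ, B) :: keys φ B
  | .box φ, B => (pr φ, B) :: keys φ B
  | .bind x φ, B => keys φ (x :: B)
  | .atNom _ _, _ => []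
  | .atVar _ _, _ => []

theorem mem_keys_app {b : 𝔅.B} {φ : Fin (𝔅.ar b) → Form 𝔅} {B : List ℕ} {k : Key} :
    k ∈ keys (.app b φ) B ↔ ∃ i, k ∈ keys (φ i) B := by
  rw [keys, List.mem_flatten]
  constructor
  · rintro ⟨l, hl, hk⟩
    obtain ⟨i, rfl⟩ := List.mem_ofFn.1 hl
    exact ⟨i, hk⟩
  · rintro ⟨i, hk⟩
    exact ⟨_, List.mem_ofFn.2 ⟨i, rfl⟩, hk⟩

theorem need_mono {J J' : List Key} (h : ∀ k ∈ J, k ∈ J') : ∀ (φ : Form 𝔅) (B : List ℕ),
    Need J φ B → Need J' φ B := by
  intro φ
  induction φ with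
  | prop i => intro B _; trivial
  | nom i => intro B _; trivial
  | var x => intro B _; trivial
  | app b φ ih => intro B hN i; exact ih i B (hN i)
  | dia φ ih => intro B hN; exact h _ hN
  | box φ ih => intro B hN; exact h _ hN
  | bind x φ ih => intro B hN; exact ih _ hN
  | atNom i φ ih => intro B _; trivial
  | atVar i φ ih => intro B _; trivial

theorem need_keys : ∀ (φ : Form 𝔅) (B : List ℕ), Need (keys φ B) φ B := by
  intro φ
  induction φ with
  | prop i => intro B; trivial
  | nom i => intro B; trivial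
  | var x => intro B; trivial
  | app b φ ih =>
    intro B i
    exact need_mono (fun k hk => mem_keys_app.2 ⟨i, hk⟩) _ _ (ih i B)
  | dia φ ih => intro B; exact List.mem_cons_self
  | box φ ih => intro B; exact List.mem_cons_self
  | bind x φ ih => intro B; exact ih _
  | atNom i φ ih => intro B; trivial
  | atVar i φ ih => intro B; trivial

theorem mem_pr_app {b : 𝔅.B} {φ : Fin (𝔅.ar b) → Form 𝔅} (i : Fin (𝔅.ar b)) {t : Tok}
    (ht : t ∈ pr (φ i)) : t ∈ pr (.app b φ) := by
  rw [pr]
  refine List.mem_cons_of_mem _ (List.mem_append_left _ ?_)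
  rw [List.mem_flatten]
  exact ⟨_, List.mem_ofFn.2 ⟨i, rfl⟩, List.mem_append_left _ ht⟩

theorem length_pr_app {b : 𝔅.B} {φ : Fin (𝔅.ar b) → Form 𝔅} (i : Fin (𝔅.ar b)) :
    (pr (φ i)).length < (pr (.app b φ)).length := by
  have h : (pr (φ i) ++ [((4, (i : ℕ)) : Tok)]).Sublist
      (List.ofFn (fun i => pr (φ i) ++ [((4, (i : ℕ)) : Tok)])).flatten :=
    List.sublist_flatten_of_mem (List.mem_ofFn.2 ⟨i, rfl⟩)
  have h1 := h.length_le
  rw [pr, List.length_cons, List.length_append]
  rw [List.length_append] at h1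
  simp only [List.length_cons, List.length_nil] at h1 ⊢
  omega

/-- The keys are words of formulas whose keys are keys, too. -/
theorem keys_spec : ∀ (φ : Form 𝔅), NoAt φ → ∀ (B : List ℕ) (k : Key), k ∈ keys φ B →
    ∃ ψ : Form 𝔅, k.1 = pr ψ ∧ NoAt ψ ∧ (∀ t ∈ pr ψ, t ∈ pr φ) ∧
      k.2.length + (pr ψ).length < B.length + (pr φ).length ∧
      (pr ψ).length < (pr φ).length ∧
      (∀ x ∈ k.2, x ∈ B ∨ x ∈ (pr φ).map Prod.snd) ∧ (∀ k' ∈ keys ψ k.2, k' ∈ keys φ B) := by
  intro φ
  induction φ with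
  | prop i => intro _ B k hk; simp [keys] at hk
  | nom i => intro _ B k hk; simp [keys] at hk
  | var x => intro _ B k hk; simp [keys] at hk
  | app b φ ih =>
    intro h B k hk
    obtain ⟨i, hi⟩ := mem_keys_app.1 hk
    obtain ⟨ψ, h1, h2, h3, h4, h5, h6, h7⟩ := ih i (h i) B k hi
    have hl := length_pr_app (φ := φ) i
    refine ⟨ψ, h1, h2, fun t ht => mem_pr_app i (h3 t ht), by omega, by omega, fun x hx => ?_,
      fun k' hk' => mem_keys_app.2 ⟨i, h7 k' hk'⟩⟩
    refine (h6 x hx).imp_right fun h8 => ?_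
    obtain ⟨t, ht, rfl⟩ := List.mem_map.1 h8
    exact List.mem_map_of_mem (mem_pr_app i ht)
  | dia φ ih =>
    intro h B k hk
    rw [keys, List.mem_cons] at hk
    have hl : (pr (Form.dia φ)).length = (pr φ).length + 2 := by simp [pr]
    rcases hk with rfl | hk
    · refine ⟨φ, rfl, h, fun t ht => by simp [pr, ht], by simp only [hl]; omega, by omega,
        fun x hx => Or.inl hx, fun k' hk' => List.mem_cons_of_mem _ hk'⟩
    · obtain ⟨ψ, h1, h2, h3, h4, h5, h6, h7⟩ := ih h B k hk
      refine ⟨ψ, h1, h2, fun t ht => by simp [pr, h3 t ht], by omega, by omega, fun x hx => ?_,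
        fun k' hk' => List.mem_cons_of_mem _ (h7 k' hk')⟩
      refine (h6 x hx).imp_right fun h8 => ?_
      obtain ⟨t, ht, rfl⟩ := List.mem_map.1 h8
      exact List.mem_map_of_mem (by simp [pr, ht])
  | box φ ih =>
    intro h B k hk
    rw [keys, List.mem_cons] at hk
    have hl : (pr (Form.box φ)).length = (pr φ).length + 2 := by simp [pr]
    rcases hk with rfl | hk
    · refine ⟨φ, rfl, h, fun t ht => by simp [pr, ht], by simp only [hl]; omega, by omega,
        fun x hx => Or.inl hx, fun k' hk' => List.mem_cons_of_mem _ hk'⟩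
    · obtain ⟨ψ, h1, h2, h3, h4, h5, h6, h7⟩ := ih h B k hk
      refine ⟨ψ, h1, h2, fun t ht => by simp [pr, h3 t ht], by omega, by omega, fun x hx => ?_,
        fun k' hk' => List.mem_cons_of_mem _ (h7 k' hk')⟩
      refine (h6 x hx).imp_right fun h8 => ?_
      obtain ⟨t, ht, rfl⟩ := List.mem_map.1 h8
      exact List.mem_map_of_mem (by simp [pr, ht])
  | bind x φ ih =>
    intro h B k hk
    rw [keys] at hk
    have hl : (pr (Form.bind x φ)).length = (pr φ).length + 1 := by simp [pr]
    obtain ⟨ψ, h1, h2, h3, h4, h5, h6, h7⟩ := ih h (x :: B) k hk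
    rw [List.length_cons] at h4
    refine ⟨ψ, h1, h2, fun t ht => by simp [pr, h3 t ht], by omega, by omega, fun y hy => ?_, h7⟩
    rcases h6 y hy with h8 | h8
    · rcases List.mem_cons.1 h8 with rfl | h9
      · right
        exact List.mem_map.2 ⟨(8, y), by simp [pr], rfl⟩
      · exact Or.inl h9
    · obtain ⟨t, ht, rfl⟩ := List.mem_map.1 h8
      exact Or.inr (List.mem_map_of_mem (by simp [pr, ht]))
  | atNom i φ ih => intro h; exact h.elim
  | atVar i φ ih => intro h; exact h.elim

/-- The keys of a formula are closed. -/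
theorem needJ_keys {φ : Form 𝔅} (hφ : NoAt φ) {B0 : List ℕ} (ψ : Form 𝔅) (B : List ℕ)
    (hk : (pr ψ, B) ∈ keys φ B0) : Need (keys φ B0) ψ B := by
  obtain ⟨χ, h1, _, _, _, _, _, h7⟩ := keys_spec φ hφ B0 _ hk
  have h2 : ψ = χ := (pr_unique ψ χ [] [] (by rw [List.append_nil, List.append_nil]; exact h1)).1
  subst h2
  exact need_mono h7 _ _ (need_keys ψ B)

theorem length_keys : ∀ (φ : Form 𝔅) (B : List ℕ), (keys φ B).length ≤ (pr φ).length := by
  intro φ
  induction φ with
  | prop i => intro B; simp [keys]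
  | nom i => intro B; simp [keys]
  | var x => intro B; simp [keys]
  | app b φ ih =>
    intro B
    have h := length_flatten_ofFn _ (fun i => keys (φ i) B)
      (fun i => pr (φ i) ++ [((4, (i : ℕ)) : Tok)]) (fun i => by
        rw [List.length_append]
        have := ih i B
        omega)
    rw [keys, pr, List.length_cons, List.length_append]
    omega
  | dia φ ih => intro B; have := ih B; simp [keys, pr]; omega
  | box φ ih => intro B; have := ih B; simp [keys, pr]; omega
  | bind x φ ih => intro B; have := ih (x :: B); simp [keys, pr]; omega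
  | atNom i φ ih => intro B; simp [keys]
  | atVar i φ ih => intro B; simp [keys]

theorem vk_keys {φ : Form 𝔅} (hφ : NoAt φ) {k : Key} (hk : k ∈ keys φ []) :
    vk (pr φ) k = true := by
  obtain ⟨ψ, h1, _, h3, h4, h5, h6, _⟩ := keys_spec φ hφ [] k hk
  have h0 : 0 < (pr ψ).length := by
    cases ψ <;> simp [pr]
  unfold vk
  simp only [Bool.and_eq_true, decide_eq_true_eq, List.all_eq_true]
  rw [List.length_nil] at h4
  refine ⟨⟨⟨by rw [h1]; omega, fun t ht => h3 t (h1 ▸ ht)⟩, by omega⟩, fun x hx => ?_⟩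
  rcases h6 x hx with h8 | h8
  · simp at h8
  · exact h8

end Pool.Agent.Helper62K6.TR
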